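import Pool.Agent.X274.MX.Scal
import Pool.Agent.X274.PR.Homs
import Pool.Agent.X274.SU.Fftu
import Pool.Agent.X274.SU.Invu
import Pool.Agent.X274.SU.Rootu
import Pool.Agent.Y708.ZO.Tan
import Pool.Agent.Y710.ZS.Tans
import Pool.Agent.Y246.SU.DCT
import Pool.Agent.Y154.SU.Coef
import Pool.Agent.Y217.SU.Lieu
import Pool.Agent.Y177.SU.Fftd
import Pool.Agent.Y794.SV.Rootv
import Pool.Agent.Y641.SV.Liev
import Pool.Agent.Y710.SV.Fftv
import Pool.Agent.Y79.SV.Fftdv
import Pool.Agent.Y314.SV.Perfv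
import Pool.Agent.Y405.SU.Perf

/-!
# Families of motives of mixed types and weights at 100 percent of the primes `ℓ`

Let `M_0, ..., M_r` be pure motives (for motivated cycles) of any weights `w_i` over a number field or a
finitely generated field `k` of characteristic zero, for example direct factors of the cohomology of
smooth projective varieties, Tate twists allowed. A number field `E_i`, Galois over `ℚ` (`E_i = ℚ` is
allowed), acts on `M_i`, with the adjoints `bar a` (`a ∈ E_i`) for a polarization, and the `ℓ`-adic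
realization `V_i` is free of rank `n_i` over `E_i ⊗ ℚ_ℓ`. The form `J_i` on `V_i` is symmetric (`w_i` even) or
alternating (`w_i` odd); it is multiplied by `χ ^ (w_i)`, `χ` the inverse of the cyclotomic character. So
there are three types of motives: orthogonal and symplectic ones over the totally real field `E_i`
(`bar = 1`), and unitary ones over the CM field `E_i` (`bar` is the complex conjugation). At the places `v` of
good reduction the geometric Frobenius element has a characteristic polynomial `P_{i,v}` with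
rational coefficients, independent of `ℓ`. As in the starting results the representations come from a
profinite group `Γ` (the Galois group of `k` or the fundamental group of a model), and if `k` is not
a number field, then a closed point of the generic fibre gives the homomorphism `s` from the Galois
group of a number field `K` to `Γ`.

**Theorem.** Suppose that
(1) for every `i` there is a place `v` such that the roots of `P_{i,v}` are simple and `x / y = z / u` for
roots `x ≠ y`, `z`, `u` only in the trivial cases `(z, u) = (x, y)` and `(z, u) = (q / y, q / x)`, where `q` is the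
multiplier (the norm of `v` to the power `w_i`);
(2) for every `i` the conditions on finitely many polynomials `P_{i,v}` of the definition `EnoughPlaces`
hold;
(3) for `i ≠ j` there is a place `v` such that the roots of `P_{i,v}` are simple and no quotient of two
different roots of `P_{i,v}` is a quotient of two roots of `P_{j,v}`.
Then for all prime numbers `ℓ` outside of a set of natural density zero:
(a) the Lie algebra of the image of the Galois group in the product of the groups of similitudes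
contains the product, over all `i`, of the Lie algebras of the (special) isometry groups over `E_i`;
(a') if there are no unitary motives, then it contains (so it is equal to) the Lie algebra of the group
of all families of similitudes of the `V_i` which commute with `E_i` and have multipliers `c ^ (w_i)` with
one common scalar `c`. This group contains the motivic Galois group, so the two are equal up to
connected components: this is the equality of the `ℓ`-adic monodromy group and of the motivic Galois group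
(every Tate class in the tannakian category generated by the `M_i` is motivated);
(b) every multilinear form in `k` variables on `V_0 ⊕ ... ⊕ V_r` which is invariant under the
isometries in an open subgroup is a linear combination of products of forms `J_i(a x_i, y_i)` in
pairs of variables `x`, `y`, with `a ∈ E_i`, for all `k` which are less than the rank `n_i` of all the
orthogonal and unitary motives (so for all `k`, if all motives are symplectic).

So up to this degree all Tate classes on products of tensor powers are motivated, and algebraic if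
the `M_i`, the polarizations and the actions of the `E_i` are given by algebraic correspondences.
Neither semisimplicity nor anything about the representations at single primes is assumed.

The new results `ProductsDensityOne` and `UnitaryDensityOne` (of the problem `MP_3703a7_ag`) are the cases of
several symplectic motives of the same weight with a common generic place, and of one unitary motive.
Here the types and the weights are arbitrary, the places in (1) belong to the single motives, and (3)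
is a condition on pairs of motives. The new part is a lemma of Goursat-Ribet type for Lie algebras
which are stable under conjugation with a Frobenius element: the root spaces of the factors are
separated by (3), without using isomorphisms of simple factors (which do not exist over `ℚ_ℓ` in a
controlled way); and the first fundamental theorem for a product of groups of different types. The
homotheties are found with the derivative of the character `χ`.
-/

set_option autoImplicit false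

namespace Pool.Agent.Results.MP_b8862a_ag.MixedTypesDensityOne

open Matrix Polynomial Filter Topology NumberField IsDedekindDomain

/-- the absolute Galois group of `K`, with its profinite (Krull) topology -/
abbrev AbsoluteGaloisGroup (K : Type) [Field K] : Type := Gal(AlgebraicClosure K/K)

/-- `σ` is an (arithmetic) Frobenius element at the prime `v` of the number field `K`: for some prime
`Q` of the algebraic closure above `v` it acts on the residue field as `x ↦ x ^ N(v)` -/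
def IsFrobenius {K : Type} [Field K] [NumberField K] (v : HeightOneSpectrum (𝓞 K))
    (σ : AbsoluteGaloisGroup K) : Prop :=
  ∃ Q : Ideal (𝓞 (AlgebraicClosure K)), Q.IsMaximal ∧
    Q.comap (algebraMap (𝓞 K) (𝓞 (AlgebraicClosure K))) = v.asIdeal ∧
    ∀ x : 𝓞 (AlgebraicClosure K), σ • x - x ^ Ideal.absNorm v.asIdeal ∈ Q

/-- the `ℓ`-adic realizations of the motives `M_0, ..., M_r` of the weights `w i`: the `ρ i` are continuous
representations of `Γ` on `ℚ_ℓ ^ (N i)`, and the nondegenerate symmetric or alternating forms with the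
matrices `J i` are multiplied by the powers `χ ^ (w i)` of one continuous character `χ` (the inverse of the
cyclotomic character); for all `v ∉ S` which are prime to `ℓ` and for (the images under `s` of) the
geometric Frobenius elements `σ⁻¹` (`σ` arithmetic) at `v` the value of `χ` is the norm of `v`, and the
characteristic polynomial of `ρ i` is `P i v` -/
def IsMotivicFamily (K : Type) [Field K] [NumberField K] {Γ : Type} [Group Γ]
    [TopologicalSpace Γ] (s : AbsoluteGaloisGroup K →* Γ) {r : ℕ} (N : Fin (r + 1) → ℕ)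
    (w : Fin (r + 1) → ℤ) (ℓ : ℕ) [Fact ℓ.Prime] (χ : Γ →* ℚ_[ℓ])
    (ρ : ∀ i, Γ →* Matrix (Fin (N i)) (Fin (N i)) ℚ_[ℓ])
    (J : ∀ i, Matrix (Fin (N i)) (Fin (N i)) ℚ_[ℓ])
    (S : Set (HeightOneSpectrum (𝓞 K))) (P : Fin (r + 1) → HeightOneSpectrum (𝓞 K) → ℚ[X]) :
    Prop :=
  Continuous χ ∧
    (∀ i, Continuous (ρ i) ∧ ((J i)ᵀ = J i ∨ (J i)ᵀ = -J i) ∧ (J i).det ≠ 0 ∧
      ∀ γ, (ρ i γ)ᵀ * J i * ρ i γ = χ γ ^ w i • J i) ∧
    ∀ v ∉ S, (ℓ : 𝓞 K) ∉ v.asIdeal → ∀ σ : AbsoluteGaloisGroup K, IsFrobenius v σ →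
      χ (s σ⁻¹) = (Ideal.absNorm v.asIdeal : ℚ_[ℓ]) ∧
        ∀ i, (ρ i (s σ⁻¹)).charpoly = (P i v).map (algebraMap ℚ ℚ_[ℓ])

/-- the field `E` acts by endomorphisms of the representation `ρ`, with the adjoints `bar a` of `a ∈ E`
for the form `J`, and the representation is of rank `n` over `E ⊗ ℚ_ℓ` -/
def IsCoefficientAction {Γ : Type} [Group Γ] {N ℓ : ℕ} [Fact ℓ.Prime]
    (E : IntermediateField ℚ (AlgebraicClosure ℚ)) (bar : E →+* E) (n : ℕ)
    (ρ : Γ →* Matrix (Fin N) (Fin N) ℚ_[ℓ]) (ε : E →+* Matrix (Fin N) (Fin N) ℚ_[ℓ])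
    (J : Matrix (Fin N) (Fin N) ℚ_[ℓ]) : Prop :=
  (∀ (a : E) (γ : Γ), ε a * ρ γ = ρ γ * ε a) ∧ (∀ a : E, (ε a)ᵀ * J = J * ε (bar a)) ∧
    ∀ a : E, (ε a).trace = (n : ℚ_[ℓ]) * ((Algebra.trace ℚ E a : ℚ) : ℚ_[ℓ])

/-- the roots of `P v` are simple, and different roots have different `n`-th powers for all `n > 0` -/
def IsRegularPlace {K : Type} [Field K] [NumberField K]
    (S : Set (HeightOneSpectrum (𝓞 K))) (P : HeightOneSpectrum (𝓞 K) → ℚ[X])
    (v : HeightOneSpectrum (𝓞 K)) : Prop :=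
  v ∉ S ∧ (P v).Separable ∧ ∀ n : ℕ, 0 < n → ∀ x y : ℂ,
    aeval x (P v) = 0 → aeval y (P v) = 0 → x ^ n = y ^ n → x = y

/-- the roots of `P v` are simple, and the quotients `x / y` of different roots are different, except
for `x / y = (q / y) / (q / x)`, where `q` is the `w`-th power of the norm of `v` -/
def IsGenericPlace {K : Type} [Field K] [NumberField K]
    (S : Set (HeightOneSpectrum (𝓞 K))) (P : HeightOneSpectrum (𝓞 K) → ℚ[X])
    (w : ℤ) (v : HeightOneSpectrum (𝓞 K)) : Prop :=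
  v ∉ S ∧ (P v).Separable ∧ ∀ x y z u : ℂ, aeval x (P v) = 0 → aeval y (P v) = 0 →
    aeval z (P v) = 0 → aeval u (P v) = 0 → x ≠ y → x * u = z * y →
    (z = x ∧ u = y) ∨ (z * y = (Ideal.absNorm v.asIdeal : ℂ) ^ w ∧
      u * x = (Ideal.absNorm v.asIdeal : ℂ) ^ w)

/-- at one place outside of `S` the roots of `P v` are simple, and no quotient of two different roots of
`P v` is a quotient of two roots of `P' v` -/
def IsIndependent {K : Type} [Field K] [NumberField K]
    (S : Set (HeightOneSpectrum (𝓞 K))) (P P' : HeightOneSpectrum (𝓞 K) → ℚ[X]) : Prop :=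
  ∃ v, v ∉ S ∧ (P v).Separable ∧ ∀ x y z u : ℂ, aeval x (P v) = 0 → aeval y (P v) = 0 →
    aeval z (P' v) = 0 → aeval u (P' v) = 0 → x ≠ y → x * u ≠ z * y

/-- the splitting field of `Q` in the algebraic closure of `ℚ` -/
noncomputable def splittingField (Q : ℚ[X]) : Set (AlgebraicClosure ℚ) :=
  (IntermediateField.adjoin ℚ {x : AlgebraicClosure ℚ | aeval x Q = 0} :
    IntermediateField ℚ (AlgebraicClosure ℚ))

/-- the order of the restriction of `g` to the (finite, normal) field `E` -/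
noncomputable def orderOn (E : IntermediateField ℚ (AlgebraicClosure ℚ))
    (g : AbsoluteGaloisGroup ℚ) : ℕ :=
  sInf {k : ℕ | 0 < k ∧ ∀ a ∈ E, (g ^ k) a = a}

/-- `T` is a set of roots of `Q` which is stable under `w` -/
def IsStableSet (w : AbsoluteGaloisGroup ℚ) (Q : ℚ[X]) (T : Set (AlgebraicClosure ℚ)) : Prop :=
  (∀ x ∈ T, aeval x Q = 0) ∧ ∀ x ∈ T, w x ∈ T

/-- the conditions on the Frobenius polynomials of one motive: there are regular places `u_0, ..., u_m`,
with the intersection `F` of the splitting fields of their polynomials, such that for every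
automorphism `g` of the algebraic closure of `ℚ`, of order `f` on `E`,
* for every `d`, `0 < d < n [E : ℚ]`, which is not divisible by `n f`, there are a regular place `v` and an
automorphism `w` which agrees with `g` on `F` such that no set of `d` roots of `P v` is stable under `w`;
* there are a regular place `v` and an automorphism `w` which agrees with `g` on `F` such that `w ^ f`
(`f` the order of `w` on `E`) has a fixed point in every nonempty set of roots of `P v` which is stable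
under `w` and whose number of elements is divisible by `n f` -/
def EnoughPlaces {K : Type} [Field K] [NumberField K] (E : IntermediateField ℚ (AlgebraicClosure ℚ))
    (n N : ℕ) (S : Set (HeightOneSpectrum (𝓞 K))) (P : HeightOneSpectrum (𝓞 K) → ℚ[X]) : Prop :=
  ∃ (m : ℕ) (u : Fin (m + 1) → HeightOneSpectrum (𝓞 K)), (∀ i, IsRegularPlace S P (u i)) ∧
    (∀ (g : AbsoluteGaloisGroup ℚ) (d : ℕ), 0 < d → d < N → ¬ n * orderOn E g ∣ d →
      ∃ (v : HeightOneSpectrum (𝓞 K)) (w : AbsoluteGaloisGroup ℚ), IsRegularPlace S P v ∧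
        (∀ x, (∀ i, x ∈ splittingField (P (u i))) → w x = g x) ∧
        ∀ T, IsStableSet w (P v) T → T.ncard ≠ d) ∧
    ∀ g : AbsoluteGaloisGroup ℚ,
      ∃ (v : HeightOneSpectrum (𝓞 K)) (w : AbsoluteGaloisGroup ℚ), IsRegularPlace S P v ∧
        (∀ x, (∀ i, x ∈ splittingField (P (u i))) → w x = g x) ∧
        ∀ T, IsStableSet w (P v) T → T.Nonempty → n * orderOn E w ∣ T.ncard →
          ∃ x ∈ T, (w ^ orderOn E w) x = x

/-- the family `X` belongs to the Lie algebra of the image of `Γ` in the product of the linear groups: for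
one sequence of elements `σ_k` of `Γ` all the `X i` are the limits of `ℓ ^ (-k) (ρ_i (σ_k) - 1)` -/
def InLieAlgebra {Γ : Type} [Group Γ] {r : ℕ} {N : Fin (r + 1) → ℕ} (ℓ : ℕ) [Fact ℓ.Prime]
    (ρ : ∀ i, Γ →* Matrix (Fin (N i)) (Fin (N i)) ℚ_[ℓ])
    (X : ∀ i, Matrix (Fin (N i)) (Fin (N i)) ℚ_[ℓ]) : Prop :=
  ∃ σ : ℕ → Γ, ∀ i, Tendsto (fun k : ℕ => ((ℓ : ℚ_[ℓ]) ^ k)⁻¹ • (ρ i (σ k) - 1)) atTop (𝓝 (X i))

/-- the Lie algebra of the image of `Γ` contains all families `X` of matrices which commute with the fields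
`E i`, are skew with respect to the forms `J i`, and satisfy `trace (X_i a) = 0` for `a ∈ E i` (for
`bar i = 1` this follows from the two other conditions); and if all `bar i` are the identity, then it
contains the whole Lie algebra of the group of families of similitudes which commute with the fields
`E i` and whose multipliers are `c ^ (w i)` for one scalar `c` -/
def ContainsGroup {Γ : Type} [Group Γ] {r : ℕ} {N : Fin (r + 1) → ℕ} (w : Fin (r + 1) → ℤ) (ℓ : ℕ)
    [Fact ℓ.Prime] {E : Fin (r + 1) → IntermediateField ℚ (AlgebraicClosure ℚ)}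
    (bar : ∀ i, E i →+* E i)
    (ρ : ∀ i, Γ →* Matrix (Fin (N i)) (Fin (N i)) ℚ_[ℓ])
    (ε : ∀ i, E i →+* Matrix (Fin (N i)) (Fin (N i)) ℚ_[ℓ])
    (J : ∀ i, Matrix (Fin (N i)) (Fin (N i)) ℚ_[ℓ]) : Prop :=
  (∀ X : ∀ i, Matrix (Fin (N i)) (Fin (N i)) ℚ_[ℓ], (∀ i a, X i * ε i a = ε i a * X i) →
      (∀ i, (X i)ᵀ * J i + J i * X i = 0) → (∀ i a, (X i * ε i a).trace = 0) →
      InLieAlgebra ℓ ρ X) ∧
    ((∀ i a, bar i a = a) → ∀ (X : ∀ i, Matrix (Fin (N i)) (Fin (N i)) ℚ_[ℓ]) (t : ℚ_[ℓ]),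
      (∀ i a, X i * ε i a = ε i a * X i) →
      (∀ i, (X i)ᵀ * J i + J i * X i = ((w i : ℚ_[ℓ]) * t) • J i) → InLieAlgebra ℓ ρ X)

/-- every multilinear form in `k` variables on the direct sum of the `ℚ_ℓ ^ (N i)` which is invariant under
those `σ` in an open subgroup of `Γ` which act by isometries is a linear combination of the products
`∏ J_{c_j}(a_j v_j, v_{π j})` (one factor for every pair `{j, π j}`), `π` a perfect matching of the
variables, `c_j` one of the indices `i` and `a_j ∈ E_{c_j}`; only the components in `ℚ_ℓ ^ (N (c_j))` of the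
two variables enter into a factor. The number `k` of variables is arbitrary if all motives are
symplectic with selfadjoint coefficients (`bar i = 1`), and less than the rank `n i` of all the other
motives in general -/
def TateTensorsFrom {Γ : Type} [Group Γ] [TopologicalSpace Γ] {r : ℕ} {N : Fin (r + 1) → ℕ}
    (n : Fin (r + 1) → ℕ) (ℓ : ℕ) [Fact ℓ.Prime]
    {E : Fin (r + 1) → IntermediateField ℚ (AlgebraicClosure ℚ)} (bar : ∀ i, E i →+* E i)
    (ρ : ∀ i, Γ →* Matrix (Fin (N i)) (Fin (N i)) ℚ_[ℓ])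
    (ε : ∀ i, E i →+* Matrix (Fin (N i)) (Fin (N i)) ℚ_[ℓ])
    (J : ∀ i, Matrix (Fin (N i)) (Fin (N i)) ℚ_[ℓ]) : Prop :=
  ∀ k : ℕ, (∀ i, k < n i ∨ ((∀ a, bar i a = a) ∧ (J i)ᵀ = -J i)) →
    ∀ (φ : MultilinearMap ℚ_[ℓ] (fun _ : Fin k => ∀ i, Fin (N i) → ℚ_[ℓ]) ℚ_[ℓ])
    (U : Subgroup Γ), IsOpen (U : Set Γ) →
    (∀ σ ∈ U, (∀ i, (ρ i σ)ᵀ * J i * ρ i σ = J i) → ∀ v, φ (fun j i => ρ i σ *ᵥ v j i) = φ v) →
    (fun v => φ v) ∈ Submodule.span ℚ_[ℓ] {f : (Fin k → ∀ i, Fin (N i) → ℚ_[ℓ]) → ℚ_[ℓ] |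
      ∃ (π : Equiv.Perm (Fin k)) (c : Fin k → Fin (r + 1)) (a : ∀ j, E (c j)),
        (∀ j, π (π j) = j) ∧ (∀ j, π j ≠ j) ∧
        ∀ v, f v = ∏ j with j < π j, ((ε (c j) (a j) *ᵥ v j (c j)) ⬝ᵥ J (c j) *ᵥ v (π j) (c j))}

/-- the set `A` of prime numbers has natural density zero -/
def HasDensityZero (A : Set ℕ) : Prop :=
  Tendsto (fun n : ℕ => (Nat.card {ℓ : ℕ // ℓ ≤ n ∧ ℓ ∈ A} : ℝ) / (Nat.primeCounting n : ℝ))
    atTop (𝓝 0)

theorem dis_transfer {P Q : ℚ[X]} (hP : P ≠ 0) (hQ : Q ≠ 0)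
    (h : ∀ x y z u : ℂ, aeval x P = 0 → aeval y P = 0 → aeval z Q = 0 → aeval u Q = 0 →
      x ≠ y → x * u ≠ z * y) (ℓ : ℕ) [Fact ℓ.Prime] (x' y' z' u' : AlgebraicClosure ℚ_[ℓ])
    (hx' : aeval x' (P.map (algebraMap ℚ ℚ_[ℓ])) = 0)
    (hy' : aeval y' (P.map (algebraMap ℚ ℚ_[ℓ])) = 0)
    (hz' : aeval z' (Q.map (algebraMap ℚ ℚ_[ℓ])) = 0)
    (hu' : aeval u' (Q.map (algebraMap ℚ ℚ_[ℓ])) = 0)
    (hxy : x' ≠ y') : x' * u' ≠ z' * y' := by
  obtain ⟨jc⟩ := Y142.ZI.nonempty_LC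
  obtain ⟨ι⟩ := Y142.ZI.emb ℓ
  obtain ⟨x, hx, rfl⟩ := Y142.ZI.lift_root ℓ ι hP hx'
  obtain ⟨y, hy, rfl⟩ := Y142.ZI.lift_root ℓ ι hP hy'
  obtain ⟨z, hz, rfl⟩ := Y142.ZI.lift_root ℓ ι hQ hz'
  obtain ⟨u, hu, rfl⟩ := Y142.ZI.lift_root ℓ ι hQ hu'
  intro heq
  rw [← map_mul, ← map_mul] at heq
  have h1 := ι.injective heq
  refine h (jc x) (jc y) (jc z) (jc u) (Y142.ZS.push_C jc hx) (Y142.ZS.push_C jc hy)
    (Y142.ZS.push_C jc hz) (Y142.ZS.push_C jc hu) (fun h2 => hxy (by rw [jc.injective h2])) ?_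
  rw [← map_mul, ← map_mul, h1]

/-- **Families of motives of mixed types and weights at 100 percent of the primes `ℓ`.** -/
theorem result (K : Type) [Field K] [NumberField K] (Γ : Type) [Group Γ] [TopologicalSpace Γ]
    [IsTopologicalGroup Γ] [CompactSpace Γ] (s : AbsoluteGaloisGroup K →* Γ) (hs : Continuous s)
    (S : Set (HeightOneSpectrum (𝓞 K))) (hS : S.Finite)
    (r : ℕ) (N n : Fin (r + 1) → ℕ) (w : Fin (r + 1) → ℤ)
    (P : Fin (r + 1) → HeightOneSpectrum (𝓞 K) → ℚ[X])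
    (χ : ∀ (ℓ : ℕ) [Fact ℓ.Prime], Γ →* ℚ_[ℓ])
    (ρ : ∀ (ℓ : ℕ) [Fact ℓ.Prime] (i : Fin (r + 1)), Γ →* Matrix (Fin (N i)) (Fin (N i)) ℚ_[ℓ])
    (J : ∀ (ℓ : ℕ) [Fact ℓ.Prime] (i : Fin (r + 1)), Matrix (Fin (N i)) (Fin (N i)) ℚ_[ℓ])
    (hρ : ∀ (ℓ : ℕ) [Fact ℓ.Prime], IsMotivicFamily K s N w ℓ (χ ℓ) (ρ ℓ) (J ℓ) S P)
    -- the coefficients
    (E : Fin (r + 1) → IntermediateField ℚ (AlgebraicClosure ℚ)) [∀ i, FiniteDimensional ℚ (E i)]
    [∀ i, Normal ℚ (E i)] (bar : ∀ i, E i →+* E i)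
    (hn : ∀ i, 0 < n i) (hN : ∀ i, N i = n i * Module.finrank ℚ (E i))
    (ε : ∀ (ℓ : ℕ) [Fact ℓ.Prime] (i : Fin (r + 1)),
      E i →+* Matrix (Fin (N i)) (Fin (N i)) ℚ_[ℓ])
    (hε : ∀ (ℓ : ℕ) [Fact ℓ.Prime] (i : Fin (r + 1)),
      IsCoefficientAction (E i) (bar i) (n i) (ρ ℓ i) (ε ℓ i) (J ℓ i))
    -- the places
    (hgen : ∀ i, ∃ v, IsGenericPlace S (P i) (w i) v)
    (hplaces : ∀ i, EnoughPlaces (E i) (n i) (N i) S (P i))
    (hind : ∀ i j, i ≠ j → IsIndependent S (P i) (P j)) :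
    HasDensityZero {ℓ | ∃ _ : Fact ℓ.Prime, ¬ (ContainsGroup w ℓ bar (ρ ℓ) (ε ℓ) (J ℓ) ∧
      TateTensorsFrom n ℓ bar (ρ ℓ) (ε ℓ) (J ℓ))} := by
  classical
  -- the tasks
  have hTAN : Y142.ZO.S_TAN := Y708.ZO.t
  have hTANS : Y142.ZS.S_TANS := Y710.ZS.t1
  have hDCT : Y142.SU.S_DCT := Y246.SU.DCT.t
  have hLIEV : Y142.SV.S_LIEV := Y641.SV.t Y794.SV.t_rootv
  have hFFTDV : Y142.SV.S_FFTDV := Y79.SV.t Y710.SV.t
  have hPERFV : Y142.SV.S_PERFV := Y314.SV.t_PERFV
  have hLIEU : Y142.SU.S_LIEU := Y217.SU.t X274.SU.t_rootu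
  have hFFTD : Y142.SU.S_FFTD := Y177.SU.t X274.SU.t_fftu
  have hPERF : Y142.SU.S_PERF := Y405.SU.t
  have hINVU : Y142.SU.S_INVU := X274.SU.t_invu
  have hCOEF : Y142.SU.S_COEF := Y154.SU.t_COEF
  have hgs : ∀ (ℓ : ℕ) [Fact ℓ.Prime] (i : Fin (r + 1)),
      Y142.SI.GenSys K s (N i) ℓ (ρ ℓ i) S (P i) := fun ℓ _ i =>
    ⟨((hρ ℓ).2.1 i).1, fun v hv hvℓ σ hσ => ((hρ ℓ).2.2 v hv hvℓ σ hσ).2 i⟩
  have hsys' : ∀ (i : Fin (r + 1)) (ℓ : ℕ) [Fact ℓ.Prime],
      Y142.SS.Sys K (N i) ℓ ((ρ ℓ i).comp s) S (P i) := fun i ℓ _ =>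
    ⟨(hgs ℓ i).1.comp hs, fun v hv hvℓ σ hσ => (hgs ℓ i).2 v hv hvℓ σ hσ⟩
  have hnice : ∀ i v, IsRegularPlace S (P i) v → Y142.ZS.NiceP S (P i) v := fun i v hv =>
    Y142.SS.nice_of_complexA (fun ℓ _ => (ρ ℓ i).comp s) (fun ℓ _ => hsys' i ℓ) hv.1 hv.2.1 hv.2.2
  have hmonic : ∀ i v, v ∉ S → (P i v).Monic := fun i v hv =>
    (Y142.SS.monic_of_sysA (fun ℓ _ => (ρ ℓ i).comp s) (fun ℓ _ => hsys' i ℓ) hv).1
  have henough : ∀ i, X274.PR.Enough (E i) (n i) (N i) S (P i) := by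
    intro i
    obtain ⟨m, u, hu, h1, h2⟩ := hplaces i
    have hLf : ∀ (k : Fin (m + 1)) (x : AlgebraicClosure ℚ),
        x ∈ Y142.ZI.Lf (P i (u k)) → x ∈ splittingField (P i (u k)) := by
      intro k x hx
      have h2 : (P i (u k)).rootSet (AlgebraicClosure ℚ) =
          {x : AlgebraicClosure ℚ | aeval x (P i (u k)) = 0} := by
        ext y
        exact mem_rootSet_of_ne (hu k).2.1.ne_zero
      unfold Y142.ZI.Lf at hx
      rw [h2] at hx
      exact hx
    have hA : ∀ g w : AbsoluteGaloisGroup ℚ,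
        (∀ x, (∀ k, x ∈ splittingField (P i (u k))) → w x = g x) →
        w⁻¹ * g ∈ Subgroup.closure (⋃ k, Y142.SS.Fix (P i (u k))) := by
      intro g w hw
      refine Y142.SS.field_mem _ (fun k => (hu k).2.1.ne_zero) fun x hx => ?_
      rw [AlgEquiv.mul_apply, ← hw x fun k => hLf k x (hx k), ← AlgEquiv.mul_apply, inv_mul_cancel,
        AlgEquiv.one_apply]
    refine ⟨m, u, fun k => hnice i _ (hu k), ?_, ?_⟩
    · intro g d hd hdN hnd
      obtain ⟨v, w, hv, hw, hT⟩ := h1 g d hd hdN hnd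
      exact ⟨v, hnice i v hv, w, fun T hT1 hT2 => hT T ⟨hT1, hT2⟩, hA g w hw⟩
    · intro g
      obtain ⟨v, w, hv, hw, hT⟩ := h2 g
      exact ⟨v, hnice i v hv, w, fun T hT1 hne hT2 hd => hT T ⟨hT1, hT2⟩ hne hd, hA g w hw⟩
  -- one motive
  have hone : ∀ i, Y142.ZI.DensityZero
      {ℓ | ∃ _ : Fact ℓ.Prime, ¬ Y142.SI.GoodEnd ℓ (E i) (ρ ℓ i) (ε ℓ i)} := by
    intro i
    refine Y142.ZI.DensityZero.mono (X274.PR.homs_density s hs hS (I := Unit) (fun _ => N i)
      (fun _ => n i) (fun _ => P i) (fun ℓ _ _ => ρ ℓ i) (fun ℓ _ _ => hgs ℓ i) (fun _ => E i)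
      (fun _ => inferInstance) (fun _ => inferInstance) (fun _ => hn i) (fun _ => hN i)
      (fun ℓ _ _ => ε ℓ i) (fun ℓ _ _ => (hε ℓ i).1) (fun ℓ _ _ => (hε ℓ i).2.2)
      (fun _ => henough i) fun a b hab => absurd (Subsingleton.elim a b) hab) ?_
    rintro ℓ ⟨hp, hno⟩
    exact ⟨hp, fun h => hno (h.1 ())⟩
  -- the finitely many places
  choose v₀ hv₀ using hgen
  choose vv hvv using hind
  let c : Fin (r + 1) → Fin (r + 1) → ℕ := fun i j =>
    if h : i ≠ j then Ideal.absNorm (vv i j h).asIdeal else 0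
  let b : ℕ := (∑ i, ∑ j, c i j) + ∑ i, Ideal.absNorm (v₀ i).asIdeal
  have hbig : Y142.ZI.DensityZero {ℓ : ℕ | ℓ ≤ b} := X274.TH.density_finite b
  refine Y142.ZI.DensityZero.mono (hbig.union (X274.PR.density_iUnion _ hone)) ?_
  rintro ℓ ⟨hp, hno⟩
  by_contra hnot
  rw [Set.mem_union, not_or] at hnot
  obtain ⟨hb, hgood'⟩ := hnot
  have hbℓ : b < ℓ := by
    by_contra h
    exact hb (show ℓ ≤ b by omega)
  have hgood : ∀ i, Y142.SI.GoodEnd ℓ (E i) (ρ ℓ i) (ε ℓ i) := by
    intro i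
    by_contra h
    exact hgood' (Set.mem_iUnion.2 ⟨i, hp, h⟩)
  have hv₀ℓ : ∀ i, (ℓ : 𝓞 K) ∉ (v₀ i).asIdeal := by
    intro i
    refine Y142.ZO.not_mem_of_lt (v₀ i) hp.out (lt_of_le_of_lt ?_ hbℓ)
    refine le_trans ?_ (Nat.le_add_left _ _)
    exact Finset.single_le_sum (f := fun i => Ideal.absNorm (v₀ i).asIdeal)
      (fun _ _ => Nat.zero_le _) (Finset.mem_univ i)
  have hvvℓ : ∀ i j (hij : i ≠ j), (ℓ : 𝓞 K) ∉ (vv i j hij).asIdeal := by
    intro i j hij
    refine Y142.ZO.not_mem_of_lt (vv i j hij) hp.out (lt_of_le_of_lt ?_ hbℓ)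
    refine le_trans ?_ (Nat.le_add_right _ _)
    refine le_trans ?_ (Finset.single_le_sum (f := fun i => ∑ j, c i j)
      (fun _ _ => Nat.zero_le _) (Finset.mem_univ i))
    refine le_trans ?_ (Finset.single_le_sum (f := fun j => c i j)
      (fun _ _ => Nat.zero_le _) (Finset.mem_univ j))
    simp only [c]
    rw [dif_pos hij]
  -- the algebras of the coefficients
  let C : ∀ i, Subalgebra ℚ_[ℓ] (Matrix (Fin (N i)) (Fin (N i)) ℚ_[ℓ]) := fun i =>
    Algebra.adjoin ℚ_[ℓ] (Set.range (ε ℓ i))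
  have hco := fun i => hCOEF ℓ (N i) (n i) (E i) inferInstance (hn i) (ε ℓ i) (hε ℓ i).2.2
  have hsim : ∀ i g, ∃ c : ℚ_[ℓ], Y142.ZS.Sim (J ℓ i) (ρ ℓ i g) c := fun i g =>
    ⟨_, ((hρ ℓ).2.1 i).2.2.2 g⟩
  have hNice : ∀ i, X274.MX.Nice (n i) (∀ a, bar i a = a) (ρ ℓ i) (J ℓ i) (C i) := by
    intro i
    obtain ⟨σ₀, hσ₀⟩ := Pool.Agent.W401.Frob.exists_frob (v₀ i)
    have hfr := (hρ ℓ).2.2 (v₀ i) (hv₀ i).1 (hv₀ℓ i) σ₀ hσ₀
    obtain ⟨hc, hcJ, hcd, hcs⟩ := (hρ ℓ).2.1 i
    have hnorm : (Ideal.absNorm (v₀ i).asIdeal : ℚ) ≠ 0 := by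
      have h1 : Ideal.absNorm (v₀ i).asIdeal ≠ 0 := by
        rw [Ne, Ideal.absNorm_eq_zero_iff]
        exact (v₀ i).ne_bot
      exact_mod_cast h1
    have hq : ((Ideal.absNorm (v₀ i).asIdeal : ℚ) ^ w i : ℚ) ≠ 0 := zpow_ne_zero _ hnorm
    have hG : Y142.ZS.GenP S (P i) (fun v => (Ideal.absNorm v.asIdeal : ℚ) ^ w i) (v₀ i) := by
      refine Y142.SU.gen_of_complexU (hv₀ i).1 (hmonic i _ (hv₀ i).1) hq (hv₀ i).2.1 ?_
      intro x y z u hx hy hz hu hxy he
      have h := (hv₀ i).2.2 x y z u hx hy hz hu hxy he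
      rw [Rat.cast_zpow, Rat.cast_natCast]
      exact h
    have hG' := Y142.SU.generic_of_gen hG ℓ
    rw [← hfr.2 i] at hG'
    have hsep : (ρ ℓ i (s σ₀⁻¹)).charpoly.Separable := by
      rw [hfr.2 i]
      exact (hv₀ i).2.1.map
    have hτ : Y142.ZS.Sim (J ℓ i) (ρ ℓ i (s σ₀⁻¹))
        (((Ideal.absNorm (v₀ i).asIdeal : ℚ) ^ w i : ℚ) : ℚ_[ℓ]) := by
      have h := hcs (s σ₀⁻¹)
      rw [hfr.1] at h
      unfold Y142.ZS.Sim
      rw [h, Rat.cast_zpow, Rat.cast_natCast]
    have hc0 : (((Ideal.absNorm (v₀ i).asIdeal : ℚ) ^ w i : ℚ) : ℚ_[ℓ]) ≠ 0 := by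
      exact_mod_cast hq
    by_cases hbar : ∀ a, bar i a = a
    · exact X274.MX.nice_real hTAN hTANS hDCT hLIEV hFFTDV hPERFV hCOEF (ρ ℓ i) hc (E i)
        inferInstance (n i) (hn i) (ε ℓ i) (hε ℓ i).1 (hε ℓ i).2.2 (J ℓ i) hcJ hcd (hsim i)
        (fun a => by
          have h := (hε ℓ i).2.1 a
          rwa [hbar a] at h) (hgood i) (s σ₀⁻¹) _ hc0 hτ hsep hG' _
    · exact X274.MX.nice_unitary hTAN hTANS hDCT hLIEU hFFTD hPERF hINVU hCOEF (ρ ℓ i) hc (E i)
        inferInstance (n i) (hn i) (ε ℓ i) (hε ℓ i).1 (hε ℓ i).2.2 (J ℓ i) hcJ hcd (hsim i)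
        (bar i) (not_forall.1 hbar) (hε ℓ i).2.1 (hgood i) (s σ₀⁻¹) _ hc0 hτ hsep hG' _ hbar
  have hdis : ∀ i j, i ≠ j → ∃ τ : Γ, (ρ ℓ i τ).charpoly.Separable ∧
      ∀ x y z u : AlgebraicClosure ℚ_[ℓ], aeval x (ρ ℓ i τ).charpoly = 0 →
        aeval y (ρ ℓ i τ).charpoly = 0 → aeval z (ρ ℓ j τ).charpoly = 0 →
        aeval u (ρ ℓ j τ).charpoly = 0 → x ≠ y → x * u ≠ z * y := by
    intro i j hij
    obtain ⟨hvS, hsep, hroots⟩ := hvv i j hij
    obtain ⟨τ, hτ⟩ := Pool.Agent.W401.Frob.exists_frob (vv i j hij)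
    have hfr := ((hρ ℓ).2.2 _ hvS (hvvℓ i j hij) τ hτ).2
    refine ⟨s τ⁻¹, ?_, ?_⟩
    · rw [hfr i]
      exact hsep.map
    · rw [hfr i, hfr j]
      exact dis_transfer (hmonic i _ hvS).ne_zero (hmonic j _ hvS).ne_zero hroots ℓ
  obtain ⟨hlie, hten⟩ := X274.MX.local_mixed (ρ ℓ) (fun i => ((hρ ℓ).2.1 i).1) (J ℓ) C hsim hNice
    hdis
  refine hno ⟨⟨fun X hX1 hX2 hX3 => ?_, fun hbar X t hX1 hX2 => ?_⟩, fun k hk φ U hU hφ => ?_⟩
  · exact (X274.MX.tangent_big (ρ ℓ)).1 (hlie X fun i =>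
      Y142.SU.suLie_of (ε ℓ i) (hco i).2.2.1 (hX1 i) (hX2 i) (hX3 i))
  · -- the scalars
    obtain ⟨σ₀, hσ₀⟩ := Pool.Agent.W401.Frob.exists_frob (v₀ 0)
    have hfr := ((hρ ℓ).2.2 (v₀ 0) (hv₀ 0).1 (hv₀ℓ 0) σ₀ hσ₀).1
    have hnot : ∀ m : ℕ, 0 < m → χ ℓ (s σ₀⁻¹) ^ m ≠ 1 := by
      intro m hm
      rw [hfr]
      have h1 : 1 < Ideal.absNorm (v₀ 0).asIdeal := by
        have h2 : Ideal.absNorm (v₀ 0).asIdeal ≠ 0 := by
          rw [Ne, Ideal.absNorm_eq_zero_iff]
          exact (v₀ 0).ne_bot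
        have h3 : Ideal.absNorm (v₀ 0).asIdeal ≠ 1 := by
          rw [Ne, Ideal.absNorm_eq_one_iff]
          exact (v₀ 0).isPrime.ne_top
        omega
      have h4 : Ideal.absNorm (v₀ 0).asIdeal ^ m ≠ 1 := (Nat.one_lt_pow hm.ne' h1).ne'
      exact_mod_cast h4
    obtain ⟨Z, m, hm, hZ, hZJ⟩ := X274.MX.scal (fun i => ((hρ ℓ).2.1 i).1) (hρ ℓ).1
      (fun i γ => ((hρ ℓ).2.1 i).2.2.2 γ) (s σ₀⁻¹) hnot
    obtain ⟨𝔱, h𝔱, -, -, -⟩ := hTAN ℓ _ Γ (X274.MX.bigRep (ρ ℓ))
    obtain ⟨σ, hσ⟩ := (X274.MX.tangent_big (ρ ℓ)).1 hZ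
    have hZc : ∀ i a, Z i * ε ℓ i a = ε ℓ i a * Z i := fun i a =>
      (Y142.SU.comm_tangent (fun γ => (hε ℓ i).1 a γ) ⟨σ, hσ i⟩).symm
    have hY : ∀ i, Y142.SU.SULie (J ℓ i) (C i) (X i - (t / m) • Z i) := by
      intro i
      have hself : Y142.SV.Selfadj (J ℓ i) (C i) :=
        Y142.SV.selfadj_of ((hρ ℓ).2.1 i).2.1 ((hρ ℓ).2.1 i).2.2.1 (ε ℓ i) (hco i).1
          (fun a => by
            have h := (hε ℓ i).2.1 a
            rwa [hbar i a] at h)
      refine X274.MX.suLie_of_lieV hself (Y142.SV.lieV_of (ε ℓ i) (hco i).2.2.1 (fun a => ?_) ?_)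
      · rw [sub_mul, mul_sub, smul_mul_assoc, mul_smul_comm, hX1, hZc]
      · have h1 : (X i - (t / m) • Z i)ᵀ * J ℓ i + J ℓ i * (X i - (t / m) • Z i) =
            ((X i)ᵀ * J ℓ i + J ℓ i * X i) - (t / m) • ((Z i)ᵀ * J ℓ i + J ℓ i * Z i) := by
          rw [transpose_sub, transpose_smul, sub_mul, mul_sub, smul_mul_assoc, mul_smul_comm,
            smul_add]
          abel
        rw [h1, hX2, hZJ, smul_smul, ← sub_smul]
        have h2 : (w i : ℚ_[ℓ]) * t - t / m * ((w i : ℚ_[ℓ]) * m) = 0 := by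
          field_simp
          ring
        rw [h2, zero_smul]
    have hX : X = (fun i => X i - (t / m) • Z i) + (t / m) • Z := by
      funext i
      show X i = X i - (t / m) • Z i + (t / m) • Z i
      rw [sub_add_cancel]
    have h3 : X274.PR.big X ∈ 𝔱 := by
      rw [hX, X274.PR.big_add, X274.PR.big_smul]
      exact Submodule.add_mem _ ((h𝔱 _).2 (hlie _ hY)) (Submodule.smul_mem _ _ ((h𝔱 _).2 hZ))
    exact (X274.MX.tangent_big (ρ ℓ)).1 ((h𝔱 _).1 h3)
  · have h1 := hten k hk φ U hU hφ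
    have h2 : (fun v => φ v) ∈ X274.MX.conSpan (J ℓ) (fun i => Set.range (ε ℓ i))
        (Finset.univ : Finset (Fin k)) := by
      have h3 : X274.MX.conSpan (J ℓ)
          (fun i => (C i : Set (Matrix (Fin (N i)) (Fin (N i)) ℚ_[ℓ])))
          (Finset.univ : Finset (Fin k)) ≤ X274.MX.conSpan (J ℓ) (fun i => Set.range (ε ℓ i))
            (Finset.univ : Finset (Fin k)) := by
        refine Submodule.span_le.2 ?_
        intro f hf
        exact X274.MX.con_span (fun i a ha => (hco i).2.2.1 a ha) hf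
      exact h3 h1
    refine Submodule.span_mono ?_ h2
    intro f hf
    obtain ⟨π, p, hπ1, hπ2, hf⟩ := X274.MX.con_explicit (E := fun i => E i)
      (fun i => (ε ℓ i : E i → Matrix (Fin (N i)) (Fin (N i)) ℚ_[ℓ])) ⟨0, 0⟩ hf
    exact ⟨π, fun j => (p j).1, fun j => (p j).2, hπ1, fun j => (hπ2 j).2 (Finset.mem_univ j), hf⟩

end Pool.Agent.Results.MP_b8862a_ag.MixedTypesDensityOne
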