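import Pool.Agent.X299.Z.MTPlace

/-!
# MP_b8862a_ag: a zero-one law for the conjecture of Mumford and Tate

Let `X` be a smooth projective variety over a finitely generated field `F ⊂ ℂ` and `ℓ` a prime
number. The conjecture of Mumford and Tate for `X` and its powers says that the `ℓ`-adic Tate classes
on the powers of `X` are the `ℚ_ℓ`-linear combinations of Hodge classes. We show that it holds or
fails completely: let `t n` and `h n` be the dimensions of the spaces of the Tate classes and of the
Hodge classes on `X^n`, and `r n` the rank of the intersection form on the space of the classes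
which are both Tate classes and linear combinations of Hodge classes (for instance of the classes
of algebraic or motivated cycles). Either the Tate classes are the linear combinations of Hodge
classes on all powers of `X`, and `r n = t n = h n` for all `n` (and then the representations of the
Galois group are semisimple, if `F` has a real embedding), or `r n / max (t n) (h n)` tends to zero.
-/

set_option autoImplicit false

open CategoryTheory AlgebraicGeometry Filter Topology

universe u w

namespace Pool.Agent.Results.MP_b8862a_ag.MumfordTateZeroOne

open Pool.Agent.H914 Pool.Agent.H914.VarClass Pool.Agent.Y129 Pool.Agent.Y121.AHS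
  Pool.Agent.X299

theorem result {k : Type u} [Field k] {𝒱 : VarClass k} {ops : CycleOps 𝒱}
    (T : HodgeTheory ops) (X : 𝒱.Obj) [Nontrivial (T.W.H X)] (θ : GaloisTheory.{u, w} T X) :
    (∀ n, 0 < hodgeDim T (pw X n) ∧
      θ.commonRank n ≤ min (θ.act.tateDim n) (hodgeDim T (pw X n))) ∧
    ((θ.MumfordTate ∧ (∀ n, θ.commonRank n = max (θ.act.tateDim n) (hodgeDim T (pw X n))) ∧
        (θ.act.CyclotomicLines → θ.act.Semisimple)) ∨
      Tendsto (fun n => (θ.commonRank n : ℝ) / (max (θ.act.tateDim n)
        (hodgeDim T (pw X n)) : ℕ)) atTop (𝓝 0)) :=
  mt_law' θ

end Pool.Agent.Results.MP_b8862a_ag.MumfordTateZeroOne
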