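import Pool.Agent.X227.MM.Main

/-!
# The motivated Mumford-Tate conjecture for products of any variety with varieties of symplectic type

Let `k` be an algebraic closure in `ℂ` of a finitely generated field `k₀` and `Γ` the Galois group of
`k₀`. `W` is the cohomology of the smooth projective varieties over `k` with coefficients in an
algebraic closure of `ℚ_ℓ` (isomorphic to `ℂ`), with its Galois action (`GaloisData`) and, by the
comparison isomorphism of Artin, its rational Hodge structures (`HodgeData`). The motivated classes
(`IsMotivated`) are the smallest system of classes which contains the algebraic classes and is closed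
under linear combinations, products, pull-backs, push-forwards and the inverses of the Lefschetz
isomorphisms; these are the linear combinations of the motivated classes of André.

`MotivatedMT Ψ G Y` says that the spaces of motivated classes, of combinations of Hodge classes, and of
Tate classes (classes in `H^(2 j)(j)` fixed by a subgroup of finite index of the Galois group) in all
`H^(2 j)(Y)` are the same, and `MotivatedMTAll Ψ G Y` says this for all powers of `Y`: so the groups
`MT`, `G_mot` and (if the Galois action is semisimple) the connected `ℓ`-adic monodromy group of the
motive of `Y` have the same invariants in all tensor spaces.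

Let `X i` be any family of odd-dimensional varieties, which may be infinite, such that homological and
numerical equivalence coincide on `X i`, the transcendental cohomology `T i` of `X i` is concentrated
in the middle degree and not zero, the Mumford-Tate group and the Galois group act irreducibly on the
Lie algebra of the skew operators on `T i`, some Galois element has two eigenvalues on `T i` whose
quotient is not a root of unity, and these representations are pairwise not isomorphic. Examples
are hypersurfaces and complete intersections of odd dimension with large Galois image and general
curves. Let `Z` be ANY variety. Nothing is assumed on the Hodge structure, the Galois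
representation and the algebraic classes of `Z`.

(1) There is a finite set `B` of indices, the sum of whose ranks `dim T i` is at most
`2 dim H(Z)`, such that the conjecture holds for the product of `Z` and any powers of the `X i` if and
only if it holds for the subproducts with `i ∈ B` which are bounded by a Betti number of `Z`.

(2) If for every `i` some slope on `T i` exceeds `(dim X i + N) / 2`, where the cohomology of `Z` is
generated by pieces on which the slopes differ by at most `N`, and similarly for the Hodge types (for
example, `Z` is an abelian variety and `T i` is of level at least `3`), then the conjecture holds for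
all powers of the product of `Z` and powers of the `X i` if and only if it holds for all powers of `Z`.

(3) The conjecture holds for all powers of all products of the `X i` (`Z` is a point).
-/

open CategoryTheory AlgebraicGeometry

universe u

namespace Pool.Agent.Results.MP_b8862a_ag.ProductsWithAnyVariety

open Pool.Agent.H914 Pool.Agent.H914.VarClass Pool.Agent.H914.VarClass.Obj Pool.Agent.Y132.AH
  Pool.Agent.X227.MM

variable {k : Type u} [Field k] {𝒱 : VarClass k} {ops : CycleOps 𝒱}

theorem result (W : WeilCohomology.{u, 0} ops) [IsAlgClosed W.K] {Γ : Type} [Group Γ]
    (Ψ : HodgeData W) (G : GaloisData W Γ) {ι : Type} [DecidableEq ι] (X : ι → 𝒱.Obj)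
    (hH : SpFamily Ψ X) (hG : BigFamily G X) (Z : 𝒱.Obj) :
    (∃ B : Finset ι, ∑ i ∈ B, trDim W (X i) ≤ 2 * totDim W Z ∧
      (∀ i ∈ B, ¬Separated Ψ G (X i) Z) ∧
      ∀ L : List ι, MotivatedMT Ψ G (prodList X Z L) ↔
        ∀ L' : List ι, L'.Sublist L → SmallDim W X Z B L' →
          MotivatedMT Ψ G (prodList X Z L')) ∧
    ((∀ i, Separated Ψ G (X i) Z) → ∀ L : List ι,
      (MotivatedMTAll Ψ G (prodList X Z L) ↔ MotivatedMTAll Ψ G Z)) ∧
    (Z.dim = 0 → ∀ L : List ι, MotivatedMTAll Ψ G (prodList X Z L)) :=
  ⟨mot_iff Ψ G Z hH hG, fun h L => mot_all Ψ G Z hH hG h L,
    fun hZ L => mot_products_all Ψ G hZ hH hG L⟩

end Pool.Agent.Results.MP_b8862a_ag.ProductsWithAnyVariety
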