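import Pool.Agent.X208.SP.Mot

/-!
# The motivated Mumford-Tate conjecture and the symmetric powers of a variety

`W` is a Weil cohomology theory with Hodge structures `Ψ` and Galois actions `G`. If some Hodge class
(or some Tate class) on `X` is not motivated then, for all `Y` and `n`, many Hodge classes (Tate
classes) on `Y × Sym ^ (n + 1) X` are not motivated: their number exceeds the rank of the intersection
form on the motivated classes by at least the number of the motivated classes on `Y × Sym ^ n X`. In
particular at most half of the Hodge classes (Tate classes) on the varieties `Y × Sym ^ n X` are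
motivated, up to arbitrarily small `ε`, for infinitely many `n`.

The classes on `Y × Sym ^ n X` are the classes on `Y × X ^ n` which are invariant under the
permutations of the factors `X`. (By a theorem of André the intersection form on the motivated
classes is nondegenerate in characteristic zero, so that the rank is the number of the motivated
classes.)
-/

open CategoryTheory AlgebraicGeometry

universe u

namespace Pool.Agent.Results.MP_b8862a_ag.SymmetricPowers

open Pool.Agent.H914 Pool.Agent.H914.VarClass Pool.Agent.H914.VarClass.Obj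
  Pool.Agent.H914.WeilCohomology Pool.Agent.Y132.AH Pool.Agent.X227.MM Pool.Agent.X208.SP

variable {k : Type u} [Field k] {𝒱 : VarClass k} {ops : CycleOps 𝒱}

theorem result {W : WeilCohomology.{u, 0} ops} {Γ : Type} [Group Γ] (Ψ : HodgeData W)
    (G : GaloisData W Γ) (X : 𝒱.Obj) :
    -- not all Hodge classes on `X` are motivated
    ((∃ i c, IsHodge Ψ X i c ∧ ¬ IsMotivated W X c) →
      ∃ c ≤ X.dim, ∀ (Y : 𝒱.Obj) (n j : ℕ),
        motRank W Y X (n + 1) (j + c) + motNum W Y X n j ≤ hodgeNum Ψ Y X (n + 1) (j + c)) ∧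
    -- not all Tate classes on `X` are motivated
    ((∃ i c, IsTate G X i c ∧ ¬ IsMotivated W X c) →
      ∃ c ≤ X.dim, ∀ (Y : 𝒱.Obj) (n j : ℕ),
        motRank W Y X (n + 1) (j + c) + motNum W Y X n j ≤ tateNum G Y X (n + 1) (j + c)) ∧
    -- the fifty per cent law
    ∀ Y : 𝒱.Obj, (1 : W.H Y) ≠ 0 → ∀ ε : ℝ, 0 < ε → ∀ n₀ : ℕ,
      ((∀ n, n₀ ≤ n → (1 / 2 + ε) * (sumDeg Y X n (hodgeNum Ψ Y X n) : ℝ) ≤
        sumDeg Y X n (motRank W Y X n)) → ∀ i c, IsHodge Ψ X i c → IsMotivated W X c) ∧
      ((∀ n, n₀ ≤ n → (1 / 2 + ε) * (sumDeg Y X n (tateNum G Y X n) : ℝ) ≤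
        sumDeg Y X n (motRank W Y X n)) → ∀ i c, IsTate G X i c → IsMotivated W X c) ∧
      ((∀ n, n₀ ≤ n → (1 / 2 + ε) * (sumDeg Y X n (hodgeNum Ψ Y X n) : ℝ) ≤
          sumDeg Y X n (motRank W Y X n) ∧
        (1 / 2 + ε) * (sumDeg Y X n (tateNum G Y X n) : ℝ) ≤
          sumDeg Y X n (motRank W Y X n)) → MotivatedMT Ψ G X) :=
  mot_fifty Ψ G X

end Pool.Agent.Results.MP_b8862a_ag.SymmetricPowers
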